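import Mathlib

/-!
The weak Shanks conjecture on the bidisk, for the degree-lexicographic ordering, fails already for
the second optimal polynomial approximant.
-/

set_option autoImplicit false

namespace Pool.Agent.Results.MP_52e642_an.WeakShanksFails

open MvPolynomial

/-- The squared norm of a polynomial in the Hardy space of the bidisk: the sum of the squares of
the absolute values of its coefficients. -/
noncomputable def normSq (u : MvPolynomial (Fin 2) ℂ) : ℝ :=
  ∑ m ∈ u.support, ‖u.coeff m‖ ^ 2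

/-- The position (starting with `0`) of the monomial `z₁ ^ m 0 * z₂ ^ m 1` in the
degree-lexicographic ordering `1, z₁, z₂, z₁ ^ 2, z₁ z₂, z₂ ^ 2, z₁ ^ 3, …`. -/
def pos (m : Fin 2 →₀ ℕ) : ℕ := (m 0 + m 1) * (m 0 + m 1 + 1) / 2 + m 1

/-- `q` is an `n`-th optimal polynomial approximant of `1 / f` in the Hardy space of the bidisk:
it lies in the span of the first `n + 1` monomials and minimises the norm of `p f - 1` over all
`p` in that span. -/
def IsOPA (f : MvPolynomial (Fin 2) ℂ) (n : ℕ) (q : MvPolynomial (Fin 2) ℂ) : Prop :=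
  (∀ m ∈ q.support, pos m ≤ n) ∧
    ∀ p : MvPolynomial (Fin 2) ℂ, (∀ m ∈ p.support, pos m ≤ n) →
      Real.sqrt (normSq (q * f - 1)) ≤ Real.sqrt (normSq (p * f - 1))

/-! ### Exponents and lists -/

/-- exponent vector -/
noncomputable def ex (i j : ℕ) : Fin 2 →₀ ℕ := Finsupp.single 0 i + Finsupp.single 1 j

lemma ex_zero (i j : ℕ) : ex i j 0 = i := by simp [ex]

lemma ex_one (i j : ℕ) : ex i j 1 = j := by simp [ex]

lemma eq_ex (m : Fin 2 →₀ ℕ) : m = ex (m 0) (m 1) := by
  ext k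
  fin_cases k
  · exact (ex_zero _ _).symm
  · exact (ex_one _ _).symm

lemma ex_inj {i j k l : ℕ} : ex i j = ex k l ↔ i = k ∧ j = l := by
  constructor
  · intro h
    constructor
    · rw [← ex_zero i j, h, ex_zero]
    · rw [← ex_one i j, h, ex_one]
  · rintro ⟨rfl, rfl⟩
    rfl

/-- polynomial of a list -/
noncomputable def ofL : List (ℕ × ℕ × ℤ) → MvPolynomial (Fin 2) ℂ
  | [] => 0
  | t :: L => monomial (ex t.1 t.2.1) (t.2.2 : ℂ) + ofL L

/-- coefficients of a list -/
def cf : List (ℕ × ℕ × ℤ) → ℕ → ℕ → ℤ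
  | [], _, _ => 0
  | t :: L, i, j => (if t.1 = i ∧ t.2.1 = j then t.2.2 else 0) + cf L i j

lemma coeff_ofL (L : List (ℕ × ℕ × ℤ)) (i j : ℕ) :
    coeff (ex i j) (ofL L) = ((cf L i j : ℤ) : ℂ) := by
  induction L with
  | nil => simp [ofL, cf]
  | cons t L ih =>
    rw [ofL, cf, coeff_add, coeff_monomial, ih]
    by_cases h : t.1 = i ∧ t.2.1 = j
    · rw [if_pos (ex_inj.2 h), if_pos h]
      push_cast
      ring
    · rw [if_neg (fun h' => h (ex_inj.1 h')), if_neg h]
      push_cast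
      ring

/-- the exponents of the list are small -/
def small (L : List (ℕ × ℕ × ℤ)) : Bool := L.all fun t => t.1 < 6 && t.2.1 < 6

lemma cf_small (L : List (ℕ × ℕ × ℤ)) (hL : small L = true) (i j : ℕ) (h : ¬(i < 6 ∧ j < 6)) :
    cf L i j = 0 := by
  induction L with
  | nil => rfl
  | cons t L ih =>
    simp only [small, List.all_cons, Bool.and_eq_true, decide_eq_true_eq] at hL
    rw [cf, ih (by simpa [small] using hL.2), if_neg]
    · rfl
    · rintro ⟨rfl, rfl⟩
      exact h hL.1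

/-! ### The inner product -/

/-- the inner product over the box of exponents below `6` -/
noncomputable def ip (u v : MvPolynomial (Fin 2) ℂ) : ℂ :=
  ∑ i ∈ Finset.range 6, ∑ j ∈ Finset.range 6,
    (starRingEnd ℂ) (coeff (ex i j) u) * coeff (ex i j) v

/-- the polynomials supported in the box -/
def InBox (u : MvPolynomial (Fin 2) ℂ) : Prop :=
  ∀ i j, ¬(i < 6 ∧ j < 6) → coeff (ex i j) u = 0

lemma ip_add_left (u v w : MvPolynomial (Fin 2) ℂ) : ip (u + v) w = ip u w + ip v w := by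
  simp only [ip, coeff_add, map_add, add_mul, Finset.sum_add_distrib]

lemma ip_add_right (u v w : MvPolynomial (Fin 2) ℂ) : ip u (v + w) = ip u v + ip u w := by
  simp only [ip, coeff_add, mul_add, Finset.sum_add_distrib]

lemma ip_smul_left (c : ℂ) (u v : MvPolynomial (Fin 2) ℂ) :
    ip (c • u) v = (starRingEnd ℂ) c * ip u v := by
  simp only [ip, coeff_smul, smul_eq_mul, map_mul, Finset.mul_sum, mul_assoc]

lemma ip_smul_right (c : ℂ) (u v : MvPolynomial (Fin 2) ℂ) : ip u (c • v) = c * ip u v := by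
  simp only [ip, coeff_smul, smul_eq_mul, Finset.mul_sum]
  refine Finset.sum_congr rfl fun i _ => Finset.sum_congr rfl fun j _ => ?_
  ring

lemma ip_ofL (L M : List (ℕ × ℕ × ℤ)) :
    ip (ofL L) (ofL M) =
      ((∑ i ∈ Finset.range 6, ∑ j ∈ Finset.range 6, cf L i j * cf M i j : ℤ) : ℂ) := by
  simp only [ip, coeff_ofL]
  push_cast
  simp

lemma normSq_eq {u : MvPolynomial (Fin 2) ℂ} (hu : InBox u) : normSq u = (ip u u).re := by
  have h1 : normSq u = ∑ m ∈ (Finset.range 6 ×ˢ Finset.range 6).image (fun x => ex x.1 x.2),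
      ‖u.coeff m‖ ^ 2 := by
    refine Finset.sum_subset ?_ ?_
    · intro m hm
      rw [Finset.mem_image]
      refine ⟨(m 0, m 1), ?_, (eq_ex m).symm⟩
      rw [Finset.mem_product, Finset.mem_range, Finset.mem_range]
      by_contra h
      have := hu (m 0) (m 1) h
      rw [← eq_ex m] at this
      exact (mem_support_iff.1 hm) this
    · intro m _ hm
      rw [notMem_support_iff] at hm
      simp [hm]
  rw [h1, Finset.sum_image, Finset.sum_product]
  · simp only [ip, Complex.re_sum]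
    refine Finset.sum_congr rfl fun i _ => Finset.sum_congr rfl fun j _ => ?_
    rw [← Complex.normSq_eq_norm_sq, Complex.normSq_apply, Complex.mul_re, Complex.conj_re,
      Complex.conj_im]
    ring
  · rintro ⟨i, j⟩ _ ⟨k, l⟩ _ h
    exact Prod.ext (ex_inj.1 h).1 (ex_inj.1 h).2

lemma ip_self_pos {u : MvPolynomial (Fin 2) ℂ} (hu : InBox u) (h : u ≠ 0) : 0 < (ip u u).re := by
  rw [← normSq_eq hu]
  obtain ⟨m, hm⟩ := ne_zero_iff.1 h
  refine Finset.sum_pos' (fun _ _ => by positivity) ⟨m, mem_support_iff.2 hm, ?_⟩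
  have : 0 < ‖coeff m u‖ := norm_pos_iff.2 hm
  positivity

lemma ip_conj (u v : MvPolynomial (Fin 2) ℂ) : (starRingEnd ℂ) (ip u v) = ip v u := by
  simp only [ip, map_sum, map_mul, Complex.conj_conj]
  refine Finset.sum_congr rfl fun i _ => Finset.sum_congr rfl fun j _ => ?_
  ring

/-! ### The example -/

/-- coefficients of `f` -/
def LF : List (ℕ × ℕ × ℤ) :=
  [(0, 0, 225), (0, 1, 180), (0, 2, 36), (1, 0, 180), (1, 1, 372), (1, 2, 240), (1, 3, 48),
   (2, 0, 36), (2, 1, 240), (2, 2, 196), (2, 3, 80), (2, 4, 16), (3, 1, 48), (3, 2, 80),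
   (3, 3, 32), (4, 2, 16)]

/-- coefficients of `z₁ f` -/
def LF1 : List (ℕ × ℕ × ℤ) := LF.map fun t => (t.1 + 1, t.2.1, t.2.2)

/-- coefficients of `z₂ f` -/
def LF2 : List (ℕ × ℕ × ℤ) := LF.map fun t => (t.1, t.2.1 + 1, t.2.2)

/-- coefficients of `1` -/
def L1 : List (ℕ × ℕ × ℤ) := [(0, 0, 1)]

lemma ofL_map1 (L : List (ℕ × ℕ × ℤ)) :
    ofL (L.map fun t => (t.1 + 1, t.2.1, t.2.2)) = X 0 * ofL L := by
  induction L with
  | nil => simp [ofL]
  | cons t L ih =>
    rw [List.map_cons, ofL, ofL, ih, mul_add]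
    congr 1
    rw [X, monomial_mul, one_mul]
    congr 1
    simp only [ex, Finsupp.single_add]
    abel_nf

lemma ofL_map2 (L : List (ℕ × ℕ × ℤ)) :
    ofL (L.map fun t => (t.1, t.2.1 + 1, t.2.2)) = X 1 * ofL L := by
  induction L with
  | nil => simp [ofL]
  | cons t L ih =>
    rw [List.map_cons, ofL, ofL, ih, mul_add]
    congr 1
    rw [X, monomial_mul, one_mul]
    congr 1
    simp only [ex, Finsupp.single_add]
    abel_nf

lemma ofL_L1 : ofL L1 = 1 := by
  rw [L1, ofL, ofL, add_zero]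
  simp [ex]

/-- the polynomial `f` -/
noncomputable def F : MvPolynomial (Fin 2) ℂ := ofL LF

lemma eval_ofL (L : List (ℕ × ℕ × ℤ)) (z : Fin 2 → ℂ) :
    eval z (ofL L) = (L.map fun t => (t.2.2 : ℂ) * (z 0 ^ t.1 * z 1 ^ t.2.1)).sum := by
  induction L with
  | nil => simp [ofL]
  | cons t L ih =>
    rw [ofL, map_add, ih, List.map_cons, List.sum_cons, eval_monomial]
    congr 2
    rw [ex, Finsupp.prod_add_index' (by simp) (by intro a b c; rw [pow_add]),
      Finsupp.prod_single_index (by simp), Finsupp.prod_single_index (by simp)]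

lemma eval_F (z : Fin 2 → ℂ) :
    eval z F = (3 + 2 * (z 0 * z 1)) ^ 2 * (5 + 2 * z 0 + 2 * z 1) ^ 2 := by
  rw [F, eval_ofL]
  simp only [LF, List.map_cons, List.map_nil, List.sum_cons, List.sum_nil]
  push_cast
  ring

lemma eval_F_ne (z : Fin 2 → ℂ) (hz : ∀ i, ‖z i‖ ≤ 1) : eval z F ≠ 0 := by
  rw [eval_F]
  have h0 := hz 0
  have h1 := hz 1
  refine mul_ne_zero (pow_ne_zero _ ?_) (pow_ne_zero _ ?_)
  · intro h
    have h2 : (3 : ℂ) = -(2 * (z 0 * z 1)) := by linear_combination h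
    have h3 : ‖(3 : ℂ)‖ = ‖-(2 * (z 0 * z 1))‖ := by rw [← h2]
    rw [norm_neg, norm_mul, norm_mul, Complex.norm_ofNat, Complex.norm_ofNat] at h3
    nlinarith [norm_nonneg (z 0), norm_nonneg (z 1)]
  · intro h
    have h2 : (5 : ℂ) = -(2 * z 0 + 2 * z 1) := by linear_combination h
    have h3 : ‖(5 : ℂ)‖ = ‖-(2 * z 0 + 2 * z 1)‖ := by rw [← h2]
    have h4 : ‖2 * z 0 + 2 * z 1‖ ≤ 2 * ‖z 0‖ + 2 * ‖z 1‖ := by
      refine (norm_add_le _ _).trans ?_
      rw [norm_mul, norm_mul, Complex.norm_ofNat]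
    rw [norm_neg, Complex.norm_ofNat] at h3
    linarith

lemma inBox_ofL (L : List (ℕ × ℕ × ℤ)) (hL : small L = true) : InBox (ofL L) := by
  intro i j h
  rw [coeff_ofL, cf_small L hL i j h]
  simp

lemma InBox.add {u v : MvPolynomial (Fin 2) ℂ} (hu : InBox u) (hv : InBox v) :
    InBox (u + v) := by
  intro i j h
  rw [coeff_add, hu i j h, hv i j h, add_zero]

lemma InBox.smul {u : MvPolynomial (Fin 2) ℂ} (c : ℂ) (hu : InBox u) : InBox (c • u) := by
  intro i j h
  rw [coeff_smul, hu i j h, smul_zero]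

/-- the general element of the span of the first three monomials, times `f`, minus `1` -/
noncomputable def W (a b c : ℂ) : MvPolynomial (Fin 2) ℂ :=
  a • ofL LF + b • ofL LF1 + c • ofL LF2

lemma inBox_W (a b c : ℂ) : InBox (W a b c) :=
  (((inBox_ofL LF (by decide)).smul a).add ((inBox_ofL LF1 (by decide)).smul b)).add
    ((inBox_ofL LF2 (by decide)).smul c)

lemma mul_F (a b c : ℂ) : (C a + C b * X 0 + C c * X 1) * F = W a b c := by
  rw [W, LF1, LF2, ofL_map1, ofL_map2, F, smul_eq_C_mul, smul_eq_C_mul, smul_eq_C_mul]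
  ring

lemma tab00 : ip (ofL LF) (ofL LF) = 428961 := by
  rw [ip_ofL]
  have : (∑ i ∈ Finset.range 6, ∑ j ∈ Finset.range 6, cf LF i j * cf LF i j : ℤ) = 428961 := by
    decide +kernel
  rw [this]
  norm_num

lemma tab11 : ip (ofL LF1) (ofL LF1) = 428961 := by
  rw [ip_ofL]
  have : (∑ i ∈ Finset.range 6, ∑ j ∈ Finset.range 6, cf LF1 i j * cf LF1 i j : ℤ) = 428961 := by
    decide +kernel
  rw [this]
  norm_num

lemma tab22 : ip (ofL LF2) (ofL LF2) = 428961 := by
  rw [ip_ofL]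
  have : (∑ i ∈ Finset.range 6, ∑ j ∈ Finset.range 6, cf LF2 i j * cf LF2 i j : ℤ) = 428961 := by
    decide +kernel
  rw [this]
  norm_num

lemma tab01 : ip (ofL LF) (ofL LF1) = 293780 := by
  rw [ip_ofL]
  have : (∑ i ∈ Finset.range 6, ∑ j ∈ Finset.range 6, cf LF i j * cf LF1 i j : ℤ) = 293780 := by
    decide +kernel
  rw [this]
  norm_num

lemma tab02 : ip (ofL LF) (ofL LF2) = 293780 := by
  rw [ip_ofL]
  have : (∑ i ∈ Finset.range 6, ∑ j ∈ Finset.range 6, cf LF i j * cf LF2 i j : ℤ) = 293780 := by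
    decide +kernel
  rw [this]
  norm_num

lemma tab12 : ip (ofL LF1) (ofL LF2) = 143024 := by
  rw [ip_ofL]
  have : (∑ i ∈ Finset.range 6, ∑ j ∈ Finset.range 6, cf LF1 i j * cf LF2 i j : ℤ) = 143024 := by
    decide +kernel
  rw [this]
  norm_num

lemma tab10 : ip (ofL LF1) (ofL LF) = 293780 := by
  rw [← ip_conj, tab01, map_ofNat]

lemma tab20 : ip (ofL LF2) (ofL LF) = 293780 := by
  rw [← ip_conj, tab02, map_ofNat]

lemma tab21 : ip (ofL LF2) (ofL LF1) = 143024 := by
  rw [← ip_conj, tab12, map_ofNat]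

lemma tabc0 : ip (ofL L1) (ofL LF) = 225 := by
  rw [ip_ofL]
  have : (∑ i ∈ Finset.range 6, ∑ j ∈ Finset.range 6, cf L1 i j * cf LF i j : ℤ) = 225 := by
    decide +kernel
  rw [this]
  norm_num

lemma tabc1 : ip (ofL L1) (ofL LF1) = 0 := by
  rw [ip_ofL]
  have : (∑ i ∈ Finset.range 6, ∑ j ∈ Finset.range 6, cf L1 i j * cf LF1 i j : ℤ) = 0 := by
    decide +kernel
  rw [this]
  norm_num

lemma tabc2 : ip (ofL L1) (ofL LF2) = 0 := by
  rw [ip_ofL]
  have : (∑ i ∈ Finset.range 6, ∑ j ∈ Finset.range 6, cf L1 i j * cf LF2 i j : ℤ) = 0 := by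
    decide +kernel
  rw [this]
  norm_num

/-- first coefficient of the approximant -/
noncomputable def qa : ℝ := 225 * 571985 / 72745880785

/-- second coefficient of the approximant -/
noncomputable def qb : ℝ := -(225 * 293780) / 72745880785

/-- the second optimal polynomial approximant -/
noncomputable def Q : MvPolynomial (Fin 2) ℂ := C (qa : ℂ) + C (qb : ℂ) * X 0 + C (qb : ℂ) * X 1

/-- the error -/
noncomputable def E : MvPolynomial (Fin 2) ℂ := W qa qb qb + (-1 : ℂ) • ofL L1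

lemma E_eq : E = Q * F - 1 := by
  rw [E, Q, mul_F, ofL_L1, neg_smul, one_smul, sub_eq_add_neg]

lemma ip_E0 : ip E (ofL LF) = 0 := by
  simp only [E, W, ip_add_left, ip_smul_left, tab00, tab10, tab20, tabc0, Complex.conj_ofReal,
    map_neg, map_one]
  rw [qa, qb]
  push_cast
  norm_num

lemma ip_E1 : ip E (ofL LF1) = 0 := by
  simp only [E, W, ip_add_left, ip_smul_left, tab01, tab11, tab21, tabc1, Complex.conj_ofReal,
    map_neg, map_one]
  rw [qa, qb]
  push_cast
  norm_num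

lemma ip_E2 : ip E (ofL LF2) = 0 := by
  simp only [E, W, ip_add_left, ip_smul_left, tab02, tab12, tab22, tabc2, Complex.conj_ofReal,
    map_neg, map_one]
  rw [qa, qb]
  push_cast
  norm_num

lemma ip_E_W (a b c : ℂ) : ip E (W a b c) = 0 := by
  simp only [W, ip_add_right, ip_smul_right, ip_E0, ip_E1, ip_E2, mul_zero, add_zero]

lemma inBox_E : InBox E :=
  (inBox_W _ _ _).add ((inBox_ofL L1 (by decide)).smul _)

lemma normSq_add (a b c : ℂ) : normSq (E + W a b c) = normSq E + normSq (W a b c) := by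
  rw [normSq_eq (inBox_E.add (inBox_W a b c)), normSq_eq inBox_E, normSq_eq (inBox_W a b c),
    ip_add_left, ip_add_right, ip_add_right, ip_E_W, ← ip_conj E (W a b c), ip_E_W]
  simp

lemma pos_le {m : Fin 2 →₀ ℕ} (h : pos m ≤ 2) : m = ex 0 0 ∨ m = ex 1 0 ∨ m = ex 0 1 := by
  rw [eq_ex m]
  simp only [ex_inj]
  rw [pos] at h
  generalize m 0 = i at *
  generalize m 1 = j at *
  have hj : j ≤ 2 := by omega
  have hi : i + j ≤ 1 := by
    by_contra hc
    have h2 : 2 ≤ i + j := by omega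
    have h3 : 2 * 3 ≤ (i + j) * (i + j + 1) := Nat.mul_le_mul h2 (by omega)
    have h4 : j = 0 := by omega
    subst h4
    have h5 : 3 ≤ (i + 0) * (i + 0 + 1) / 2 := by omega
    omega
  omega

lemma repr_P {p : MvPolynomial (Fin 2) ℂ} (hp : ∀ m ∈ p.support, pos m ≤ 2) :
    p = C (coeff (ex 0 0) p) + C (coeff (ex 1 0) p) * X 0 + C (coeff (ex 0 1) p) * X 1 := by
  have e0 : ex 0 0 = 0 := by simp [ex]
  have e1 : ex 1 0 = Finsupp.single 0 1 := by simp [ex]
  have e2 : ex 0 1 = Finsupp.single 1 1 := by simp [ex]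
  ext m
  rw [coeff_add, coeff_add, coeff_C, coeff_C_mul, coeff_C_mul, coeff_X, coeff_X, ← e0, ← e1,
    ← e2]
  by_cases hm : m ∈ p.support
  · rcases pos_le (hp m hm) with rfl | rfl | rfl
    · rw [if_pos rfl, if_neg (by rw [ex_inj]; omega), if_neg (by rw [ex_inj]; omega)]
      ring
    · rw [if_neg (by rw [ex_inj]; omega), if_pos rfl, if_neg (by rw [ex_inj]; omega)]
      ring
    · rw [if_neg (by rw [ex_inj]; omega), if_neg (by rw [ex_inj]; omega), if_pos rfl]
      ring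
  · rw [notMem_support_iff] at hm
    rw [hm]
    split_ifs with h1 h2 h3 h3 h2 h3 h3 <;> simp_all

lemma Q_mem : ∀ m ∈ Q.support, pos m ≤ 2 := by
  intro m hm
  rw [mem_support_iff, Q] at hm
  have e0 : ex 0 0 = 0 := by simp [ex]
  have e1 : ex 1 0 = Finsupp.single 0 1 := by simp [ex]
  have e2 : ex 0 1 = Finsupp.single 1 1 := by simp [ex]
  rw [coeff_add, coeff_add, coeff_C, coeff_C_mul, coeff_C_mul, coeff_X, coeff_X, ← e0, ← e1,
    ← e2] at hm
  by_cases h0 : ex 0 0 = m
  · rw [← h0, pos, ex_zero, ex_one]; decide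
  by_cases h1 : ex 1 0 = m
  · rw [← h1, pos, ex_zero, ex_one]; decide
  by_cases h2 : ex 0 1 = m
  · rw [← h2, pos, ex_zero, ex_one]
  · rw [if_neg h0, if_neg h1, if_neg h2] at hm
    simp at hm

lemma F_ne : F ≠ 0 := by
  intro h
  have := eval_F_ne 0 (by simp)
  rw [h] at this
  simp at this

/-- the difference of two elements of the span -/
lemma diff {p : MvPolynomial (Fin 2) ℂ} (hp : ∀ m ∈ p.support, pos m ≤ 2) :
    ∃ a b c : ℂ, p * F - 1 = E + W a b c ∧ (p - Q) * F = W a b c := by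
  refine ⟨coeff (ex 0 0) p - qa, coeff (ex 1 0) p - qb, coeff (ex 0 1) p - qb, ?_, ?_⟩
  · rw [E_eq, ← mul_F]
    conv_lhs => rw [repr_P hp]
    rw [Q]
    simp only [C_sub]
    ring
  · rw [← mul_F]
    conv_lhs => rw [repr_P hp]
    rw [Q]
    simp only [C_sub]
    ring

lemma normSq_nonneg (u : MvPolynomial (Fin 2) ℂ) : 0 ≤ normSq u :=
  Finset.sum_nonneg fun _ _ => by positivity

lemma isOPA_Q : IsOPA F 2 Q := by
  refine ⟨Q_mem, fun p hp => ?_⟩
  obtain ⟨a, b, c, h, -⟩ := diff hp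
  rw [h, normSq_add, ← E_eq]
  exact Real.sqrt_le_sqrt (by linarith [normSq_nonneg (W a b c)])

lemma isOPA_iff (p : MvPolynomial (Fin 2) ℂ) : IsOPA F 2 p ↔ p = Q := by
  constructor
  · rintro ⟨hp, hmin⟩
    obtain ⟨a, b, c, h, h'⟩ := diff hp
    have h1 := hmin Q Q_mem
    rw [h, normSq_add, ← E_eq] at h1
    have h2 := (Real.sqrt_le_sqrt_iff (normSq_nonneg E)).1 h1
    by_contra hne
    have h3 : W a b c ≠ 0 := by
      rw [← h']
      exact mul_ne_zero (sub_ne_zero.2 hne) F_ne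
    have h4 := ip_self_pos (inBox_W a b c) h3
    rw [← normSq_eq (inBox_W a b c)] at h4
    linarith
  · rintro rfl
    exact isOPA_Q

/-- The weak Shanks conjecture on the bidisk fails for the degree-lexicographic ordering: the
polynomial `f = (3 + 2 z₁ z₂) ^ 2 (5 + 2 z₁ + 2 z₂) ^ 2` has no zero on the closed bidisk, and its
second optimal polynomial approximant in the Hardy space of the bidisk (there is exactly one, a
combination of `1`, `z₁` and `z₂`) has a zero in the open bidisk. -/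
theorem result : ∃ f : MvPolynomial (Fin 2) ℂ,
    f = (C 3 + C 2 * X 0 * X 1) ^ 2 * (C 5 + C 2 * X 0 + C 2 * X 1) ^ 2 ∧
    (∀ z : Fin 2 → ℂ, (∀ i, ‖z i‖ ≤ 1) → eval z f ≠ 0) ∧
    ∃ q : MvPolynomial (Fin 2) ℂ, (∀ p : MvPolynomial (Fin 2) ℂ, IsOPA f 2 p ↔ p = q) ∧
      ∃ z : Fin 2 → ℂ, (∀ i, ‖z i‖ < 1) ∧ eval z q = 0 := by
  refine ⟨F, ?_, eval_F_ne, Q, isOPA_iff, fun _ => ((571985 / 587560 : ℝ) : ℂ), fun _ => ?_, ?_⟩
  · refine MvPolynomial.funext fun z => ?_
    rw [eval_F]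
    simp only [map_mul, map_pow, map_add, eval_C, eval_X]
    ring
  · rw [Complex.norm_real, Real.norm_eq_abs, abs_of_pos (by norm_num)]
    norm_num
  · rw [Q]
    simp only [map_mul, map_add, eval_C, eval_X]
    rw [qa, qb]
    push_cast
    norm_num

end Pool.Agent.Results.MP_52e642_an.WeakShanksFails
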